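import Pool.Agent.Work.MP_5ce8c0_co.FH.Final

set_option autoImplicit false

namespace Pool.Agent.Results.MP_5ce8c0_co.FractionalHamilton
open Pool.Agent.Work.MP_5ce8c0_co.FH

/-- Let `G` be a finite 4-connected simple graph with a rotation system `R` such that
`|V| - |E| + |F| ≥ 0` (`F` the set of faces, the cycles of `R.face`), that is, `G` is embedded in the sphere
or the torus. Then `G` is fractionally Hamiltonian: there are rational weights in `[0, 1]` on the edges with
sum `2` at every vertex and with sum at least `2` on every cut. -/
theorem result (V : Type) [Fintype V] (G : SimpleGraph V) (hG : FourConn G) (R : Rotation G)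
    (hR : Nat.card G.edgeSet ≤ Fintype.card V + ncyc R.face) :
    ∃ x : V → V → ℚ, FracHam G x :=
  frac_ham G hG R hR

end Pool.Agent.Results.MP_5ce8c0_co.FractionalHamilton
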